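import Pool.Agent.Y992.HL.Stm

set_option autoImplicit false

/-! Project HE (owner helper992): the general form of project HL, with backward degrees at most a
small multiple of the maximum degree: definitions and statements. -/

namespace Pool.Agent.Y992.HE

open Finset Pool.Agent.H983R2.GC Pool.Agent.W341.UG Pool.Agent.Y992.HL

/-- A distance-like function `D` on the graph `G` (symmetric, zero exactly on the diagonal, changing
by at most one along an edge) such that every vertex `x` with `D v x ≤ K` has at most `κ`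
neighbours `y` with `D v y ≤ D v x`. -/
structure GE {V : Type} (G : SimpleGraph V) (D : V → V → ℕ) (κ : ℝ) (K : ℕ) : Prop where
  symm : ∀ v w, D v w = D w v
  zero : ∀ v w, D v w = 0 ↔ v = w
  lip : ∀ v x y, G.Adj x y → D v x ≤ D v y + 1
  back : ∀ v x, D v x ≤ K → ∀ S : Finset V, (∀ y ∈ S, G.Adj x y ∧ D v y ≤ D v x) →
    (S.card : ℝ) ≤ κ

section

variable {V C : Type} [Fintype V] [DecidableEq V] [Fintype C] [DecidableEq C]

open Classical in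
/-- Number of forward paths of length `i` from `v` to a vertex, inside `R` (the `D`-distance from
`v` increases by one in every step). -/
noncomputable def nt (G : SimpleGraph V) (D : V → V → ℕ) (R : Finset V) (v : V) : ℕ → V → ℕ
  | 0, y => if y = v then 1 else 0
  | i + 1, y => if y ∈ R ∧ D v y = i + 1 then
      ∑ x ∈ univ.filter (fun x => G.Adj x y), nt G D R v i x else 0

/-- Number of forward paths of length `k + 1` from `v` inside `R`. -/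
noncomputable def PN (G : SimpleGraph V) (D : V → V → ℕ) (R : Finset V) (v : V) (k : ℕ) : ℕ :=
  ∑ y, nt G D R v (k + 1) y

end

/-- Near independence, without independent sets. -/
def S_NI : Prop := ∀ (V C : Type) [Fintype V] [DecidableEq V] [Fintype C] [DecidableEq C]
  (G : SimpleGraph V) (c0 : C) (s m : ℕ) (R : Finset V) (L : V → Finset C) (h : V) (b c : C)
  (U : ℕ → Finset V) (W : Finset V) (t : V → C → ℝ) (β X A : ℝ),
  1 ≤ s → h ∉ R → Sl G s R L → SlP G s R (nb G R h) L → U 0 = ∅ → (∀ i, U i ⊆ R) →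
  (∀ i, 1 ≤ i → i ≤ m → ∀ x ∈ insert h R, x ∉ U (i - 1) → ((nb G (U i) x).card : ℝ) ≤ β * s) →
  (∀ x ∈ insert h R, ((nb G R x).card : ℝ) ≤ X * s) → 0 ≤ β → β ≤ 1 / 2 → 0 ≤ X → 0 ≤ A →
  (∀ i, 1 ≤ i → i ≤ m → Disjoint (U i) (U (i - 1))) →
  W ⊆ U m → Osc t →
  (∀ F : (V → C) → ℝ, Lip R F →
    |EE G c0 R (era L (nb G R h) b) F - EE G c0 R (era L (nb G R h) c) F| ≤ A) →
  |EE G c0 R (era L (nb G R h) b) (adf W t) - EE G c0 R (era L (nb G R h) c) (adf W t)| ≤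
    2 * β * ((m : ℝ) * (2 + 2 * X) ^ m) * (1 + A)

/-- The structure from near independence. -/
def S_BR : Prop := ∀ (V C : Type) [Fintype V] [DecidableEq V] [Fintype C] [DecidableEq C]
  (G : SimpleGraph V) (D : V → V → ℕ) (c0 : C) (s Δ N k K : ℕ) (ε A β : ℝ),
  1 ≤ s → 0 < ε → 0 ≤ A → 0 ≤ β → β ≤ 1 / 2 → GE G D (β * s) K → k + 2 ≤ K →
  (∀ w, (nb G univ w).card ≤ Δ) → ε * (Δ : ℝ) ≤ s → IBD G D c0 s N 0 A →
  BRN G D c0 s N k (4 * (β * (((k : ℝ) + 1) * (2 + 2 / ε) ^ (k + 1)) * (1 + A)))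

/-- Properties of the numbers of forward paths. -/
def S_NT : Prop := ∀ (V : Type) [Fintype V] [DecidableEq V] (G : SimpleGraph V)
  (D : V → V → ℕ) (Δ K : ℕ) (κ : ℝ), GE G D κ K → (∀ w, (nb G univ w).card ≤ Δ) →
  ∀ (R : Finset V) (v : V), v ∉ R →
    (∀ i, ∑ y, nt G D R v i y ≤ Δ ^ i) ∧
    (∀ i y, nt G D R v i y ≠ 0 → D v y = i ∧ (1 ≤ i → y ∈ R) ∧ ∀ z, D v z ≤ D y z + i) ∧
    (∀ k w, D v w = k + 1 → ∀ y,
      nt G D (R.erase w) v (k + 1) y = if y = w then 0 else nt G D R v (k + 1) y)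

/-- The crude bound: one neighbour after the other, along paths. -/
def S_BFS : Prop := ∀ (V C : Type) [Fintype V] [DecidableEq V] [Fintype C] [DecidableEq C]
  (G : SimpleGraph V) (D : V → V → ℕ) (c0 : C) (s Δ N k j K : ℕ) (ε A om β : ℝ),
  2 ≤ s → 0 < ε → 0 ≤ A → 0 ≤ β → GE G D (β * s) K → k + 2 ≤ K →
  (∀ w, (nb G univ w).card ≤ Δ) → ε * (Δ : ℝ) ≤ s → IBD G D c0 s N j A →
  ∀ (R : Finset V) (L : V → Finset C) (v : V) (b c : C) (F : (V → C) → ℝ) (W : Finset V),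
    R.card ≤ N + 1 → v ∉ R → Sl G s R L → SlP G s R (nb G R v) L → W ⊆ R → Lip W F →
    ((om = 1 ∧ j = 0) ∨ (om = 0 ∧ 1 ≤ j ∧ ∀ w ∈ W, j + (k + 1) ≤ D v w)) →
    |EE G c0 R (era L (nb G R v) b) F - EE G c0 R (era L (nb G R v) c) F| ≤
      om * ∑ i ∈ Finset.range (k + 1), (2 / ε) ^ (i + 1) +
        (om + A) * (2 * β * ∑ i ∈ Finset.range (k + 1), (2 / ε) ^ i) +
        (2 / (s : ℝ)) ^ (k + 1) * (PN G D R v k : ℝ) * A

/-- Revealing the vertices of level `k + 1`, smallest influence per path first. -/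
def S_REV : Prop := ∀ (V C : Type) [Fintype V] [DecidableEq V] [Fintype C] [DecidableEq C]
  (G : SimpleGraph V) (D : V → V → ℕ) (c0 : C) (s Δ N k j K : ℕ) (ε A om E β T : ℝ),
  2 ≤ s → 1 ≤ k → 0 < ε → 0 ≤ A → 0 ≤ E → 0 ≤ β → 0 < T → GE G D (β * s) K → k + 2 ≤ K →
  (∀ w, (nb G univ w).card ≤ Δ) → ε * (Δ : ℝ) ≤ s → IBD G D c0 s N j A →
  (∀ (R : Finset V) (L : V → Finset C) (v : V) (b c : C) (W : Finset V),
    R.card ≤ N + 1 → v ∉ R → Sl G s R L → SlP G s R (nb G R v) L → W ⊆ R →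
    (∀ w ∈ W, D v w = k + 1) →
    ∑ w ∈ W, ∑ a, |pr G c0 R (era L (nb G R v) b) w a - pr G c0 R (era L (nb G R v) c) w a| ≤
      E) →
  ∀ (R : Finset V) (L : V → Finset C) (v : V) (b c : C) (F : (V → C) → ℝ) (W : Finset V),
    R.card ≤ N + 1 → v ∉ R → Sl G s R L → SlP G s R (nb G R v) L → W ⊆ R → Lip W F →
    ((om = 1 ∧ j = 0) ∨ (om = 0 ∧ 1 ≤ j ∧ ∀ w ∈ W, j + (k + 1) ≤ D v w)) →
    |EE G c0 R (era L (nb G R v) b) F - EE G c0 R (era L (nb G R v) c) F| ≤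
      om * ∑ i ∈ Finset.range (k + 1), (2 / ε) ^ (i + 1) +
        (om + A) * (2 * β * ∑ i ∈ Finset.range (k + 1), (2 / ε) ^ i) +
        (2 / (s : ℝ)) ^ (k + 1) * T * A +
        (om + A) * (E * (if (PN G D R v k : ℝ) ≤ T then 0
          else 1 + Real.log ((PN G D R v k : ℝ) / T)))

/-- Choice of the parameters. -/
def S_NUM : Prop := ∀ ε : ℝ, 0 < ε → ε ≤ 1 → ∃ (lam M δ θ A β : ℝ) (k s0 : ℕ),
  0 < lam ∧ lam < 1 ∧ 0 ≤ M ∧ 0 < δ ∧ 0 < θ ∧ θ ≤ 1 ∧ 1 ≤ k ∧ 2 ≤ s0 ∧ 0 < β ∧ β ≤ 1 / 2 ∧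
  β * (s0 : ℝ) ≤ 1 ∧
  (∀ s : ℕ, s0 ≤ s →
    1 / (1 + ε) * (1 + 1 / (s : ℝ)) ^ 2 * Real.exp (3 * (δ / ε) + 1 / (s : ℝ)) ≤ lam ^ 2) ∧
  4 * (δ / ε * (1 + 2 / ε + 4 * M)) / (1 - lam) ^ 2 ≤ 1 ∧
  2 / ε * (1 / (1 - lam) + 1) + 4 ≤ M ∧
  A = 2 * (∑ i ∈ Finset.range (k + 1), (2 / ε) ^ (i + 1)) + 1 ∧
  2 * β * (∑ i ∈ Finset.range (k + 1), (2 / ε) ^ i) + (2 / ε) ^ (k + 1) * θ +
    4 * (2 / ε * (((k : ℝ) + 1) * lam ^ k +
      4 * (δ / ε * (1 + 2 / ε + 4 * M)) / (1 - lam) ^ 2) +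
      δ / ε * (1 + 2 / ε + 4 * M)) * (1 + Real.log (1 / θ)) ≤ 1 / 4 ∧
  4 * (β * (((k : ℝ) + 1) * (2 + 2 / ε) ^ (k + 1)) * (1 + A)) ≤ δ

/-- The influence bound, uniformly in the maximum degree, with exponential decay. -/
def S_INF : Prop := ∀ ε : ℝ, 0 < ε → ε ≤ 1 → ∃ (K l : ℕ) (A β : ℝ),
  0 ≤ A ∧ 1 ≤ l ∧ 0 < β ∧ 1 ≤ K ∧
  ∀ (V C : Type) [Fintype V] [DecidableEq V] [Fintype C] [DecidableEq C] (G : SimpleGraph V)
    (D : V → V → ℕ) (c0 : C) (s Δ : ℕ), 2 ≤ s → ε * (Δ : ℝ) ≤ s → GE G D (β * s) K →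
    (∀ w, (nb G univ w).card ≤ Δ) → ∀ N j, IBD G D c0 s N j (A / 2 ^ (j / l))

/-- Cartesian products: subgraphs of products of connected graphs of maximum degree `b`. -/
def S_PROD : Prop := ∀ (n b K : ℕ) (X : Fin n → Type) (H : ∀ i, SimpleGraph (X i)) (V : Type)
  (G : SimpleGraph V) (x : V → ∀ i, X i),
  (∀ i, (H i).Connected) →
  (∀ i a, ∀ S : Finset (X i), (∀ c ∈ S, (H i).Adj a c) → S.card ≤ b) →
  Function.Injective x →
  (∀ u w, G.Adj u w → ∃ i, (H i).Adj (x u i) (x w i) ∧ ∀ j, j ≠ i → x u j = x w j) →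
  GE G (fun u w => ∑ i, (H i).dist (x u i) (x w i)) ((b : ℝ) * (K : ℝ)) K

end Pool.Agent.Y992.HE
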