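import Pool.Agent.Y992.HE.Stm
import Pool.Agent.Y514.HL.Zd
import Pool.Agent.H983R2.GD.Main

set_option autoImplicit false

/-! Project HE: from the influence bound to the mixing time. -/

namespace Pool.Agent.Y992.HE

open Finset Pool.Agent.H983R2.GC Pool.Agent.Y992.HL

theorem GE_mono {V : Type} {G : SimpleGraph V} {D : V → V → ℕ} {κ κ' : ℝ} {K K' : ℕ}
    (h : GE G D κ K) (hκ : κ ≤ κ') (hK : K' ≤ K) : GE G D κ' K' :=
  ⟨h.symm, h.zero, h.lip, fun v x hx S hS => (h.back v x (hx.trans hK) S hS).trans hκ⟩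

theorem GE_of_GD {V : Type} {G : SimpleGraph V} {D : V → V → ℕ} {B K : ℕ}
    (h : GD G D B K) : GE G D ((B : ℝ) * K) K :=
  ⟨h.symm, h.zero, h.lip, fun v x hx S hS => by
    have h1 := h.back v x hx S hS
    have h2 : S.card ≤ B * K := h1.trans (Nat.mul_le_mul_left B hx)
    exact_mod_cast h2⟩

theorem INF_of (h : S_INF) (ε : ℝ) (hε : 0 < ε) :
    ∃ (K : ℕ) (A β : ℝ), 0 ≤ A ∧ 0 < β ∧ 1 ≤ K ∧
      ∀ (V C : Type) [Fintype V] [DecidableEq V] [Fintype C] [DecidableEq C]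
        (G : SimpleGraph V) (D : V → V → ℕ) (c0 : C) (s Δ : ℕ), 2 ≤ s → ε * (Δ : ℝ) ≤ s →
        GE G D (β * s) K → (∀ w, (nb G univ w).card ≤ Δ) → INF G c0 s A := by
  obtain ⟨K, l, A, β, h1, h2, h3, hK, h4⟩ := h (min ε 1) (lt_min hε one_pos) (min_le_right _ _)
  refine ⟨K, A, β, h1, h3, hK, ?_⟩
  intro V C _ _ _ _ G D c0 s Δ hs hΔ hG hd R L v b c F hv hL hLS hF
  have hΔ' : min ε 1 * (Δ : ℝ) ≤ s :=
    (mul_le_mul_of_nonneg_right (min_le_left _ _) (Nat.cast_nonneg _)).trans hΔ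
  have := h4 V C G D c0 s Δ hs hΔ' hG hd R.card 0 R L v b c F R le_rfl hv hL hLS
    (Finset.Subset.refl _) hF (fun w _ => Nat.zero_le _)
  simpa using this

/-- Mixing for graphs with a distance-like function with small backward degrees. -/
theorem final_GE (h : S_INF) (ε : ℝ) (hε : 0 < ε) :
    ∃ (K : ℕ) (η : ℝ), 0 < η ∧ 1 ≤ K ∧ ∀ Δ q : ℕ, Δ + 2 ≤ q → (1 + ε) * (Δ : ℝ) ≤ (q : ℝ) →
      ∃ A : ℝ, 0 < A ∧
      ∀ (V : Type) [Fintype V] [DecidableEq V] (G : SimpleGraph V),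
      (∃ D : V → V → ℕ, GE G D (η * Δ) K) → (∀ v, (G.neighborSet v).ncard ≤ Δ) →
      2 ≤ Fintype.card V →
      (∀ σ : PCol G q, tv ((P G q ^ tmix G q) σ) (unif G q) ≤ 1 / 4) ∧
      (tmix G q : ℝ) ≤ A * (Fintype.card V * Real.log (Fintype.card V)) := by
  classical
  obtain ⟨K, A, β, hA, hβ, hK, hI⟩ := INF_of h ε hε
  refine ⟨K, β * ε, by positivity, hK, fun Δ q hq hq2 => ?_⟩
  have h1 : ((q - Δ : ℕ) : ℝ) = (q : ℝ) - (Δ : ℝ) := by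
    rw [Nat.cast_sub (by omega)]
  have h2 : ε * (Δ : ℝ) ≤ ((q - Δ : ℕ) : ℝ) := by rw [h1]; linarith
  exact main_of_INF Δ q (q - Δ) (by omega) (by omega) A hA
      (fun V G => ∃ D : V → V → ℕ, GE G D (β * ε * Δ) K) (fun V _ _ G c0 hQ hdeg => by
        obtain ⟨D, hD⟩ := hQ
        refine hI V (Fin q) G D c0 (q - Δ) Δ (by omega) h2 (GE_mono hD ?_ le_rfl) hdeg
        rw [mul_assoc]
        exact mul_le_mul_of_nonneg_left h2 hβ.le)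

/-- The general form in elementary terms. -/
theorem final_gen (h : S_INF) (ε : ℝ) (hε : 0 < ε) :
    ∃ (K : ℕ) (η : ℝ), 0 < η ∧ ∀ Δ q : ℕ, Δ + 2 ≤ q → (1 + ε) * (Δ : ℝ) ≤ (q : ℝ) →
      ∃ A : ℝ, 0 < A ∧
      ∀ (V : Type) [Fintype V] [DecidableEq V] (G : SimpleGraph V) (D : V → V → ℕ),
      (∀ v w, D v w = D w v) → (∀ v w, D v w = 0 ↔ v = w) →
      (∀ v x y, G.Adj x y → D v x ≤ D v y + 1) →
      (∀ v x, D v x ≤ K → (({y | G.Adj x y ∧ D v y ≤ D v x} : Set V).ncard : ℝ) ≤ η * Δ) →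
      (∀ v, (G.neighborSet v).ncard ≤ Δ) → 2 ≤ Fintype.card V →
      (∀ σ : PCol G q, tv ((P G q ^ tmix G q) σ) (unif G q) ≤ 1 / 4) ∧
      (tmix G q : ℝ) ≤ A * (Fintype.card V * Real.log (Fintype.card V)) := by
  obtain ⟨K, η, hη, _, h1⟩ := final_GE h ε hε
  refine ⟨K, η, hη, fun Δ q hq hq2 => ?_⟩
  obtain ⟨A, hA, h2⟩ := h1 Δ q hq hq2
  refine ⟨A, hA, fun V _ _ G D a1 a2 a3 a4 a5 a6 => h2 V G ⟨D, a1, a2, a3, ?_⟩ a5 a6⟩
  intro v x hx S hS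
  refine le_trans ?_ (a4 v x hx)
  have : S.card ≤ ({y | G.Adj x y ∧ D v y ≤ D v x} : Set V).ncard := by
    rw [← Set.ncard_coe_finset]
    exact Set.ncard_le_ncard (fun y hy => hS y hy) (Set.toFinite _)
  exact_mod_cast this

/-- Subgraphs of Cartesian products. -/
theorem final_prod (h : S_INF) (hP : S_PROD) (ε : ℝ) (hε : 0 < ε) :
    ∃ η : ℝ, 0 < η ∧ ∀ Δ q : ℕ, Δ + 2 ≤ q → (1 + ε) * (Δ : ℝ) ≤ (q : ℝ) →
      ∃ A : ℝ, 0 < A ∧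
      ∀ (n : ℕ) (X : Fin n → Type) (H : ∀ i, SimpleGraph (X i)) (V : Type) [Fintype V]
        [DecidableEq V] (G : SimpleGraph V) (x : V → ∀ i, X i),
      (∀ i, (H i).Connected) →
      (∀ i a, ((H i).neighborSet a).Finite ∧ (((H i).neighborSet a).ncard : ℝ) ≤ η * Δ) →
      Function.Injective x →
      (∀ u w, G.Adj u w → ∃ i, (H i).Adj (x u i) (x w i) ∧ ∀ j, j ≠ i → x u j = x w j) →
      (∀ v, (G.neighborSet v).ncard ≤ Δ) → 2 ≤ Fintype.card V →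
      (∀ σ : PCol G q, tv ((P G q ^ tmix G q) σ) (unif G q) ≤ 1 / 4) ∧
      (tmix G q : ℝ) ≤ A * (Fintype.card V * Real.log (Fintype.card V)) := by
  obtain ⟨K, η, hη, hK, h1⟩ := final_GE h ε hε
  have hKR : (0 : ℝ) < K := by exact_mod_cast hK
  refine ⟨η / K, by positivity, fun Δ q hq hq2 => ?_⟩
  obtain ⟨A, hA, h2⟩ := h1 Δ q hq hq2
  refine ⟨A, hA, fun n X H V _ _ G x hc hd hx hG a5 a6 => h2 V G ?_ a5 a6⟩
  have hb0 : (0 : ℝ) ≤ η / K * Δ := by positivity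
  have hb := hP n ⌊η / K * (Δ : ℝ)⌋₊ K X H V G x hc (fun i a S hS => by
    refine Nat.le_floor (le_trans ?_ (hd i a).2)
    have : S.card ≤ ((H i).neighborSet a).ncard := by
      rw [← Set.ncard_coe_finset]
      exact Set.ncard_le_ncard (fun y hy => hS y hy) (hd i a).1
    exact_mod_cast this) hx hG
  refine ⟨_, GE_mono hb ?_ le_rfl⟩
  calc (⌊η / K * (Δ : ℝ)⌋₊ : ℝ) * K ≤ η / K * Δ * K :=
        mul_le_mul_of_nonneg_right (Nat.floor_le hb0) hKR.le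
    _ = η * Δ := by field_simp

/-- Finite subgraphs of the lattice `Z^d`. -/
theorem final_Zd (h : S_INF) (ε : ℝ) (hε : 0 < ε) :
    ∃ d0 : ℕ, ∀ d q : ℕ, d0 ≤ d → (1 + ε) * (2 * (d : ℝ)) ≤ (q : ℝ) → ∃ A : ℝ, 0 < A ∧
      ∀ (V : Type) [Fintype V] [DecidableEq V] (G : SimpleGraph V)
      (x : V → Fin d → ℤ), Function.Injective x →
      (∀ u w, G.Adj u w → ∑ i, |x u i - x w i| = 1) → 2 ≤ Fintype.card V →
      (∀ σ : PCol G q, tv ((P G q ^ tmix G q) σ) (unif G q) ≤ 1 / 4) ∧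
      (tmix G q : ℝ) ≤ A * (Fintype.card V * Real.log (Fintype.card V)) := by
  obtain ⟨K, η, hη, _, h1⟩ := final_GE h ε hε
  refine ⟨⌈(K : ℝ) / η⌉₊ + ⌈2 / ε⌉₊, fun d q hd hq => ?_⟩
  have e1 : (⌈(K : ℝ) / η⌉₊ : ℝ) + ⌈2 / ε⌉₊ ≤ d := by exact_mod_cast hd
  have e2 : (K : ℝ) / η ≤ d := by
    have := Nat.le_ceil ((K : ℝ) / η)
    have h3 : (0 : ℝ) ≤ ⌈2 / ε⌉₊ := Nat.cast_nonneg _
    linarith
  have e3 : 2 / ε ≤ d := by
    have := Nat.le_ceil (2 / ε)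
    have h3 : (0 : ℝ) ≤ ⌈(K : ℝ) / η⌉₊ := Nat.cast_nonneg _
    linarith
  rw [div_le_iff₀ hη] at e2
  rw [div_le_iff₀ hε] at e3
  have hd0 : (0 : ℝ) ≤ d := Nat.cast_nonneg d
  have hq' : (1 + ε) * ((2 * d : ℕ) : ℝ) ≤ (q : ℝ) := by push_cast; exact hq
  have hq2 : 2 * d + 2 ≤ q := by
    have : ((2 * d + 2 : ℕ) : ℝ) ≤ (q : ℝ) := by push_cast; nlinarith
    exact_mod_cast this
  obtain ⟨A, hA, h3⟩ := h1 (2 * d) q hq2 hq'
  refine ⟨A, hA, fun V _ _ G x hx hG hV =>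
    h3 V G ⟨_, GE_mono (GE_of_GD (Pool.Agent.Y514.HL.gd_Zd d V G x hx hG K)) ?_ le_rfl⟩
      (Pool.Agent.Y514.HL.deg_Zd d V G x hx hG) hV⟩
  push_cast
  nlinarith

end Pool.Agent.Y992.HE
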