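import Pool.Agent.Y992.HE.Ni
import Pool.Agent.Y992.HE.Main
import Pool.Agent.Y992.HE.Fin
import Pool.Agent.Y496.HE.BR
import Pool.Agent.Y388.HE.BFS
import Pool.Agent.Y658.HE.Rev
import Pool.Agent.Y447.HE.Num
import Pool.Agent.Y447.HE.Prod
import Pool.Agent.Y275.HL.ERR
import Pool.Agent.Y891.HL.Erru
import Pool.Agent.Y858.HL.Lev
import Pool.Agent.W578.UG.Tel
import Pool.Agent.W341.UG.Prb
import Pool.Agent.W405.UG.Osc
import Pool.Agent.W85.UG.Kb
import Pool.Agent.W91.UG.Step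

set_option autoImplicit false

/-! Project HE: everything together. -/

namespace Pool.Agent.Y992.HE

open Pool.Agent.H983R2.GC Pool.Agent.W341.UG Pool.Agent.Y992.HL

/-- The influence bound with exponential decay. -/
theorem s_inf : Pool.Agent.Y992.HE.S_INF := by
  have hT := Pool.Agent.W578.UG.t_TEL
  have hP := t_PRB
  have hOL := Pool.Agent.W405.UG.t_OSCL
  have hTB := t_TELB hT hP
  have hU := Pool.Agent.Y891.HL.t_ERRU' hTB
  have hE := Pool.Agent.Y275.HL.t_ERRP' hT hP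
  have hK := Pool.Agent.Y275.HL.t_ERRK' hT hP hU hE
  have hZ := Pool.Agent.Y275.HL.t_ERRZ' hT hP hE
  have hKB := Pool.Agent.W85.UG.t_KB
  have hS := Pool.Agent.W91.UG.t_STEP hKB
  have h0 := Pool.Agent.Y858.HL.t_LV0' hP
  have hLV := Pool.Agent.Y858.HL.t_LV' hK hZ hS hP
  have hLI := Pool.Agent.Y858.HL.t_LINF' hK hKB hP
  have hNT := Pool.Agent.Y388.HE.t_NT
  have hB := Pool.Agent.Y388.HE.t_BFS hOL hTB
  have hR := Pool.Agent.Y658.HE.t_REV hB hNT hOL
  exact main_HE h0 hLV hLI hR hNT Pool.Agent.Y447.HE.t_NUM (Pool.Agent.Y496.HE.t_BR t_NI)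

end Pool.Agent.Y992.HE
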