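import Pool.Agent.Y992.HE.Stm
import Pool.Agent.Y992.HL.Ni

set_option autoImplicit false
set_option linter.unusedSectionVars false

/-! Project HE: near independence by heat-bath sweeps. -/

namespace Pool.Agent.Y992.HE

open Finset Pool.Agent.H983R2.GC Pool.Agent.W341.UG Pool.Agent.Y992.HL

section

variable {V C : Type} [Fintype V] [DecidableEq V] [Fintype C] [DecidableEq C]

theorem nb_mono (G : SimpleGraph V) {T T' : Finset V} (h : T ⊆ T') (x : V) :
    (nb G T x).card ≤ (nb G T' x).card := by
  refine Finset.card_le_card fun y hy => ?_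
  rw [mem_nb] at hy ⊢
  exact ⟨h hy.1, hy.2⟩

/-- A sweep over a sparse set. -/
theorem sweep2 (G : SimpleGraph V) (c0 : C) (s : ℕ) (R : Finset V) (L : V → Finset C) (h : V)
    (b c : C) (hs : 1 ≤ s) (hh : h ∉ R)
    (hLb : Sl G s R (era L (nb G R h) b)) (hLc : Sl G s R (era L (nb G R h) c))
    (l : V → ℝ) (hl : ∀ x, 0 ≤ l x) (F : (V → C) → ℝ) (hF : WL R l F) (Q M : ℝ) (hM : 0 ≤ M)
    (hQ : Q ≤ |EE G c0 R (era L (nb G R h) b) F - EE G c0 R (era L (nb G R h) c) F| + l h)
    (U : Finset V) (hUR : U ⊆ R) (β : ℝ) (hβ0 : 0 ≤ β) (hβ : β ≤ 1 / 2)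
    (hUi : ∀ x ∈ U, ((nb G U x).card : ℝ) ≤ β * s)
    (hUM : ∀ x ∈ U, l x ≤ M) (T : Finset V) (hT : T ⊆ U) :
    ∃ (l' : V → ℝ) (F' : (V → C) → ℝ), (∀ x, 0 ≤ l' x) ∧ WL R l' F' ∧
      Q ≤ |EE G c0 R (era L (nb G R h) b) F' - EE G c0 R (era L (nb G R h) c) F'| + l' h ∧
      (∀ x ∈ T, l' x ≤ ((nb G T x).card : ℝ) * (2 * M / s)) ∧
      (∀ x, x ∉ T → l' x ≤ l x + ((nb G T x).card : ℝ) * (2 * M / s)) := by
  classical
  have hsR : (0 : ℝ) < s := by exact_mod_cast hs
  have hMs : 0 ≤ 2 * M / (s : ℝ) := by positivity
  induction T using Finset.induction_on with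
  | empty =>
    exact ⟨l, F, hl, hF, hQ, fun x hx => absurd hx (Finset.notMem_empty x), fun x _ => by
      have : (0:ℝ) ≤ ((nb G ∅ x).card : ℝ) * (2 * M / s) := by positivity
      linarith⟩
  | insert w T hwT ih =>
    obtain ⟨l', F', h1, h2, h3, h4, h5⟩ := ih (fun x hx => hT (Finset.mem_insert_of_mem hx))
    have hwU : w ∈ U := hT (Finset.mem_insert_self w T)
    have hwR : w ∈ R := hUR hwU
    have hslA : ∀ σ, s ≤ (W_A G R (era L (nb G R h) b) w σ).card := by
      intro σ
      have h1 : (era L (nb G R h) b) w \ (nb G R w).image σ ⊆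
          W_A G R (era L (nb G R h) b) w σ := by
        intro d hd
        rw [Finset.mem_sdiff] at hd
        unfold W_A
        rw [Finset.mem_filter]
        refine ⟨hd.1, fun y hy h => hd.2 ?_⟩
        exact Finset.mem_image.mpr ⟨y, hy, h⟩
      have h2 := Finset.card_le_card h1
      have h3 := Finset.le_card_sdiff ((nb G R w).image σ) ((era L (nb G R h) b) w)
      have h4 : ((nb G R w).image σ).card ≤ (nb G R w).card := Finset.card_image_le
      have h5 := hLb w hwR
      omega
    have hw' : l' w ≤ 2 * M := by
      have e1 := h5 w hwT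
      have e2 : ((nb G T w).card : ℝ) ≤ β * s := by
        refine le_trans ?_ (hUi w hwU)
        exact_mod_cast nb_mono G ((Finset.subset_insert w T).trans hT) w
      have e3 : ((nb G T w).card : ℝ) * (2 * M / s) ≤ β * s * (2 * M / s) :=
        mul_le_mul_of_nonneg_right e2 hMs
      have e4 : β * s * (2 * M / s) = 2 * β * M := by field_simp
      have e5 := hUM w hwU
      nlinarith
    have hws : l' w / (s : ℝ) ≤ 2 * M / s := by gcongr
    refine ⟨stp G s l' w, HB G R (era L (nb G R h) b) w F', stp_nonneg G s l' h1 w,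
      WL_HB G s R _ w hwR hs hslA l' h1 F' h2,
      dif_step G c0 s R L h b c hs hh hLb hLc w hwR l' h1 F' h2 Q h3, ?_, ?_⟩
    · intro x hx
      by_cases hxw : x = w
      · simp only [stp, if_pos hxw]
        positivity
      · have hxT : x ∈ T := (Finset.mem_insert.1 hx).resolve_left hxw
        have h7 := h4 x hxT
        simp only [stp, if_neg hxw]
        by_cases hadj : G.Adj w x
        · rw [if_pos hadj]
          have h8 : (nb G (insert w T) x).card = (nb G T x).card + 1 := by
            have : nb G (insert w T) x = insert w (nb G T x) := by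
              ext y
              simp only [mem_nb, Finset.mem_insert]
              constructor
              · rintro ⟨h | h, h'⟩
                · exact Or.inl h
                · exact Or.inr ⟨h, h'⟩
              · rintro (h | ⟨h, h'⟩)
                · subst h; exact ⟨Or.inl rfl, hadj.symm⟩
                · exact ⟨Or.inr h, h'⟩
            rw [this, Finset.card_insert_of_notMem]
            intro hy
            exact hwT ((mem_nb G T x w).1 hy).1
          rw [h8]
          push_cast
          nlinarith
        · rw [if_neg hadj, add_zero]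
          refine h7.trans ?_
          have h9 : ((nb G T x).card : ℝ) ≤ ((nb G (insert w T) x).card : ℝ) := by
            exact_mod_cast nb_mono G (Finset.subset_insert w T) x
          nlinarith
    · intro x hx
      have hxw : x ≠ w := fun e => hx (e ▸ Finset.mem_insert_self w T)
      have hxT : x ∉ T := fun e => hx (Finset.mem_insert_of_mem e)
      have h7 := h5 x hxT
      simp only [stp, if_neg hxw]
      by_cases hadj : G.Adj w x
      · rw [if_pos hadj]
        have h8 : (nb G (insert w T) x).card = (nb G T x).card + 1 := by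
          have : nb G (insert w T) x = insert w (nb G T x) := by
            ext y
            simp only [mem_nb, Finset.mem_insert]
            constructor
            · rintro ⟨h | h, h'⟩
              · exact Or.inl h
              · exact Or.inr ⟨h, h'⟩
            · rintro (h | ⟨h, h'⟩)
              · subst h; exact ⟨Or.inl rfl, hadj.symm⟩
              · exact ⟨Or.inr h, h'⟩
          rw [this, Finset.card_insert_of_notMem]
          intro hy
          exact hwT ((mem_nb G T x w).1 hy).1
        rw [h8]
        push_cast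
        nlinarith
      · rw [if_neg hadj, add_zero]
        refine h7.trans ?_
        have h9 : ((nb G T x).card : ℝ) ≤ ((nb G (insert w T) x).card : ℝ) := by
          exact_mod_cast nb_mono G (Finset.subset_insert w T) x
        nlinarith

end

theorem t_NI : S_NI := by
  classical
  intro V C _ _ _ _ G c0 s m R L h b c U W t β X A hs hh hSl hSlP hU0 hUR hUβ hX hβ0 hβ1 hX0
    hA hdisj hW ht hIB
  have hsR : (0 : ℝ) < s := by exact_mod_cast hs
  have hLb : ∀ d, Sl G s R (era L (nb G R h) d) := fun d => Sl_era G s R _ L d hSl hSlP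
  set Q : ℝ := |EE G c0 R (era L (nb G R h) b) (adf W t) -
    EE G c0 R (era L (nb G R h) c) (adf W t)| with hQ
  set a : ℕ → ℝ := fun n => 2 * β * ∑ j ∈ Finset.range n, (2 + 2 * X) ^ j with ha
  have ha0 : ∀ n, 0 ≤ a n := fun n =>
    mul_nonneg (by linarith) (Finset.sum_nonneg fun j _ => by positivity)
  have ha1 : ∀ n, a (n + 1) = a n + 2 * β * (2 + 2 * X) ^ n := fun n => by
    simp only [ha]
    rw [Finset.sum_range_succ, mul_add]
  have haM : ∀ n, a n ≤ (2 + 2 * X) ^ n := by
    intro n
    induction n with
    | zero => simp [ha]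
    | succ n ih =>
      rw [ha1]
      have h1 : 0 ≤ (2 + 2 * X) ^ n := by positivity
      have h2 : 2 * β * (2 + 2 * X) ^ n ≤ 1 * (2 + 2 * X) ^ n :=
        mul_le_mul_of_nonneg_right (by linarith) h1
      rw [pow_succ]
      nlinarith [mul_nonneg h1 hX0]
  have key : ∀ n, n ≤ m → ∃ (l : V → ℝ) (F : (V → C) → ℝ), (∀ x, 0 ≤ l x) ∧ WL R l F ∧
      Q ≤ |EE G c0 R (era L (nb G R h) b) F - EE G c0 R (era L (nb G R h) c) F| + l h ∧
      (∀ x ∈ insert h R, x ∉ U (m - n) → l x ≤ a n) ∧
      (∀ x ∈ U (m - n), l x ≤ (2 + 2 * X) ^ n) := by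
    intro n
    induction n with
    | zero =>
      intro _
      refine ⟨fun x => if x ∈ W then 1 else 0, adf W t, fun x => ?_, ?_, ?_, ?_, ?_⟩
      · dsimp only
        split_ifs
        · exact zero_le_one
        · exact le_rfl
      · intro x σ d
        have hWR : W ⊆ R := hW.trans (hUR m)
        by_cases hxW : x ∈ W
        · rw [if_pos (hWR hxW)]
          beta_reduce
          rw [if_pos hxW]
          unfold adf
          rw [← Finset.sum_sub_distrib, Finset.sum_eq_single_of_mem x hxW]
          · rw [Function.update_self]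
            exact ht x d (σ x)
          · intro y _ hyx
            rw [Function.update_of_ne hyx, sub_self]
        · have : adf W t (Function.update σ x d) = adf W t σ := by
            unfold adf
            refine Finset.sum_congr rfl fun y hy => ?_
            have : y ≠ x := fun e => hxW (e ▸ hy)
            rw [Function.update_of_ne this]
          rw [this, sub_self, abs_zero]
          beta_reduce
          rw [if_neg hxW]
          split_ifs <;> exact le_rfl
      · have hhW : h ∉ W := fun e => hh (hUR m (hW e))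
        beta_reduce
        rw [if_neg hhW, add_zero]
      · intro x _ hx
        have hxW : x ∉ W := fun e => hx (by simpa using hW e)
        simp [hxW, ha]
      · intro x _
        dsimp only
        rw [pow_zero]
        split_ifs
        · exact le_rfl
        · exact zero_le_one
    | succ n ih =>
      intro hn
      obtain ⟨l, F, h1, h2, h3, h4, h5⟩ := ih (by omega)
      have hM : 0 ≤ (2 + 2 * X) ^ n := by positivity
      have hUin : ∀ x ∈ U (m - n), ((nb G (U (m - n)) x).card : ℝ) ≤ β * s := by
        intro x hx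
        refine hUβ (m - n) (by omega) (by omega) x (Finset.mem_insert_of_mem (hUR _ hx)) ?_
        exact Finset.disjoint_left.1 (hdisj (m - n) (by omega) (by omega)) hx
      obtain ⟨l', F', g1, g2, g3, g4, g5⟩ := sweep2 G c0 s R L h b c hs hh (hLb b) (hLb c) l h1 F
        h2 Q ((2 + 2 * X) ^ n) hM h3 (U (m - n)) (hUR _) β hβ0 hβ1 hUin h5
        (U (m - n)) (Finset.Subset.refl _)
      have hmn : m - (n + 1) = m - n - 1 := by omega
      have hP : 0 ≤ 2 * (2 + 2 * X) ^ n / (s : ℝ) := by positivity
      have hβn : 0 ≤ β * (2 + 2 * X) ^ n := mul_nonneg hβ0 hM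
      refine ⟨l', F', g1, g2, g3, ?_, ?_⟩
      · intro x hx hxU
        have e3 := hUβ (m - n) (by omega) (by omega) x hx (by rwa [← hmn])
        have e4 : ((nb G (U (m - n)) x).card : ℝ) * (2 * (2 + 2 * X) ^ n / s) ≤
            2 * β * (2 + 2 * X) ^ n := by
          calc _ ≤ β * s * (2 * (2 + 2 * X) ^ n / s) := mul_le_mul_of_nonneg_right e3 hP
            _ = 2 * β * (2 + 2 * X) ^ n := by field_simp
        rw [ha1]
        by_cases hxn : x ∈ U (m - n)
        · have := g4 x hxn
          have := ha0 n
          linarith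
        · have e1 := g5 x hxn
          have e2 := h4 x hx hxn
          linarith
      · intro x hxU
        have hxR : x ∈ R := hUR _ hxU
        have hxn : x ∉ U (m - n) := fun hx =>
          Finset.disjoint_left.1 (hdisj (m - n) (by omega) (by omega)) hx (by rwa [← hmn])
        have e1 := g5 x hxn
        have e2 := h4 x (Finset.mem_insert_of_mem hxR) hxn
        have e3 : ((nb G (U (m - n)) x).card : ℝ) ≤ X * s := by
          refine le_trans ?_ (hX x (Finset.mem_insert_of_mem hxR))
          exact_mod_cast nb_mono G (hUR _) x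
        have e4 : ((nb G (U (m - n)) x).card : ℝ) * (2 * (2 + 2 * X) ^ n / s) ≤
            2 * X * (2 + 2 * X) ^ n := by
          calc _ ≤ X * s * (2 * (2 + 2 * X) ^ n / s) := mul_le_mul_of_nonneg_right e3 hP
            _ = 2 * X * (2 + 2 * X) ^ n := by field_simp
        have e5 := haM n
        rw [pow_succ]
        nlinarith
  obtain ⟨l, F, h1, h2, h3, h4, _⟩ := key m le_rfl
  rw [Nat.sub_self, hU0] at h4
  have hla : ∀ x ∈ insert h R, l x ≤ a m := fun x hx => h4 x hx (Finset.notMem_empty x)
  have hdiff : |EE G c0 R (era L (nb G R h) b) F - EE G c0 R (era L (nb G R h) c) F| ≤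
      a m * A := by
    have hL := WL_lip h2 (a m) (fun x hx => hla x (Finset.mem_insert_of_mem hx)) (ha0 m)
    rcases (ha0 m).eq_or_lt with h0 | h0
    · -- constant function
      have hc : ∀ σ τ, F σ = F τ := by
        intro σ τ
        have := hL σ τ
        rw [← h0, zero_mul] at this
        exact sub_eq_zero.1 (abs_nonpos_iff.1 this)
      obtain ⟨σ0⟩ : Nonempty (V → C) := ⟨fun _ => c0⟩
      have hne : ∀ d, (Col G c0 R (era L (nb G R h) d)).Nonempty := fun d =>
        col_nonempty G c0 _ _ (Sl_mono G (by omega) _ _ (hLb d))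
      have hEd : ∀ d, EE G c0 R (era L (nb G R h) d) F = F σ0 := by
        intro d
        unfold EE
        have : ∑ σ ∈ Col G c0 R (era L (nb G R h) d), F σ =
            ∑ σ ∈ Col G c0 R (era L (nb G R h) d), F σ0 :=
          Finset.sum_congr rfl fun σ _ => hc σ σ0
        rw [this, Finset.sum_const, nsmul_eq_mul]
        have hpos : ((Col G c0 R (era L (nb G R h) d)).card : ℝ) ≠ 0 := by
          exact_mod_cast (Finset.card_pos.2 (hne d)).ne'
        field_simp
      rw [hEd, hEd, sub_self, abs_zero, ← h0, zero_mul]
    · have hF' : Lip R (fun σ => F σ / a m) := by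
        intro σ τ
        rw [← sub_div, abs_div, abs_of_pos h0, div_le_iff₀ h0, mul_comm]
        exact hL σ τ
      have hE := hIB _ hF'
      have e1 : ∀ d, EE G c0 R (era L (nb G R h) d) (fun σ => F σ / a m) =
          EE G c0 R (era L (nb G R h) d) F / a m := by
        intro d
        unfold EE
        rw [← Finset.sum_div]
        ring
      rw [e1, e1, ← sub_div, abs_div, abs_of_pos h0, div_le_iff₀ h0] at hE
      linarith
  have hlh := hla h (Finset.mem_insert_self h R)
  have hsum : ∑ j ∈ Finset.range m, (2 + 2 * X) ^ j ≤ (m : ℝ) * (2 + 2 * X) ^ m := by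
    have : ∑ j ∈ Finset.range m, (2 + 2 * X) ^ j ≤
        ∑ _j ∈ Finset.range m, (2 + 2 * X) ^ m := by
      refine Finset.sum_le_sum fun j hj => ?_
      exact pow_le_pow_right₀ (by linarith) (Finset.mem_range.1 hj).le
    rwa [Finset.sum_const, Finset.card_range, nsmul_eq_mul] at this
  have ham : a m ≤ 2 * β * ((m : ℝ) * (2 + 2 * X) ^ m) :=
    mul_le_mul_of_nonneg_left hsum (by linarith)
  have : Q ≤ a m * (1 + A) := by nlinarith
  refine this.trans ?_
  exact mul_le_mul_of_nonneg_right ham (by linarith)

end Pool.Agent.Y992.HE
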